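import Pool.Agent.H6.TP.Targets

/-!
# From a large correlation with a wave to the signs
-/

set_option autoImplicit false

open Finset Pool.Agent.H6.N4D Pool.Agent.H6.TP

namespace Pool.Agent.H38.TP

theorem pf_PTW : T_PTW := by
  classical
  intro lam n Y θ φ ρ κ₂ s e hY hρ hκ hs hlam hcor habs hcard he
  set I := Ioc n (n + Y) with hI
  set w : ℕ → ℝ := fun m => wv n θ φ m with hw
  have hY0 : (0 : ℝ) < Y := by exact_mod_cast hY
  have h1 : (2 / Real.pi - κ₂) * Y ≤ ∑ m ∈ I, lam m * w m := (le_div_iff₀ hY0).1 hcor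
  have h2 : ∑ m ∈ I, |w m| ≤ (2 / Real.pi + s) * Y := (div_le_iff₀ hY0).1 habs
  have h3 : ∑ m ∈ I, (|w m| - lam m * w m) ≤ (κ₂ + s) * Y := by
    rw [sum_sub_distrib]
    nlinarith
  have h4 : ∀ m, 0 ≤ |w m| - lam m * w m := by
    intro m
    have h5 : lam m * w m ≤ |lam m * w m| := le_abs_self _
    rw [abs_mul, hlam, one_mul] at h5
    linarith
  have h6 : ∀ m, lam m * w m ≤ 0 → |w m| - lam m * w m = 2 * |w m| := by
    intro m hm
    have h5 : |lam m * w m| = -(lam m * w m) := abs_of_nonpos hm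
    rw [abs_mul, hlam, one_mul] at h5
    linarith
  set Bad := I.filter fun m : ℕ => lam m * w m ≤ 0 with hBad
  set A := I.filter fun m : ℕ => |w m| ≤ ρ with hA
  set B := Bad.filter fun m : ℕ => ρ < |w m| with hB
  have hsub : Bad ⊆ A ∪ B := by
    intro m hm
    rw [hBad, mem_filter] at hm
    rw [mem_union]
    by_cases hc : |w m| ≤ ρ
    · left
      rw [hA, mem_filter]
      exact ⟨hm.1, hc⟩
    · right
      rw [hB, mem_filter, hBad, mem_filter]
      exact ⟨hm, not_le.1 hc⟩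
  have hBcard : (B.card : ℝ) * (2 * ρ) ≤ (κ₂ + s) * Y := by
    calc (B.card : ℝ) * (2 * ρ) = ∑ _m ∈ B, 2 * ρ := by rw [sum_const, nsmul_eq_mul]
      _ ≤ ∑ m ∈ B, (|w m| - lam m * w m) := by
          refine sum_le_sum fun m hm => ?_
          rw [hB, mem_filter, hBad, mem_filter] at hm
          rw [h6 m hm.1.2]
          linarith [hm.2]
      _ ≤ ∑ m ∈ I, (|w m| - lam m * w m) := by
          refine sum_le_sum_of_subset_of_nonneg ?_ fun m _ _ => h4 m
          intro m hm
          rw [hB, mem_filter, hBad, mem_filter] at hm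
          exact hm.1.1
      _ ≤ (κ₂ + s) * Y := h3
  have hBc : (B.card : ℝ) ≤ (κ₂ + s) / (2 * ρ) * Y := by
    rw [div_mul_eq_mul_div, le_div_iff₀ (by positivity)]
    exact hBcard
  have hc : (Bad.card : ℝ) ≤ A.card + B.card := by
    have := (card_le_card hsub).trans (card_union_le A B)
    exact_mod_cast this
  calc (Bad.card : ℝ) ≤ A.card + B.card := hc
    _ ≤ 4 * ρ * Y + (κ₂ + s) / (2 * ρ) * Y := add_le_add hcard hBc
    _ = (4 * ρ + (κ₂ + s) / (2 * ρ)) * Y := by ring
    _ ≤ e * Y := mul_le_mul_of_nonneg_right he hY0.le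

end Pool.Agent.H38.TP
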